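import Mathlib.Analysis.Normed.Lp.MeasurableSpace
import Mathlib.MeasureTheory.Measure.Hausdorff
import Mathlib.Order.CompletePartialOrder

set_option autoImplicit false

open MeasureTheory
open scoped ENNReal

namespace Pool.Agent.MP_9020c0_gt

/-- The Euclidean plane. -/
abbrev Plane : Type := EuclideanSpace ℝ (Fin 2)

/-- A tile: a bounded subset of the plane homeomorphic to the closed unit disc. -/
def IsTile (T : Set Plane) : Prop :=
  Bornology.IsBounded T ∧ Nonempty (T ≃ₜ Metric.closedBall (0 : Plane) 1)

/-- A tiling: a sequence of tiles covering the plane, with pairwise disjoint interiors. -/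
def IsTiling (T : ℕ → Set Plane) : Prop :=
  (∀ n, IsTile (T n)) ∧ (⋃ n, T n) = Set.univ ∧
    Pairwise fun m n => Disjoint (interior (T m)) (interior (T n))

/-- The isoperimetric ratio: the square of the one-dimensional Hausdorff measure of the boundary,
divided by the area. -/
noncomputable def isoRatio (T : Set Plane) : ℝ≥0∞ :=
  (μH[1] (frontier T)) ^ 2 / volume T

end Pool.Agent.MP_9020c0_gt
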