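import Mathlib.Topology.Sheaves.Presheaf
import Mathlib.Data.Int.Star
import Mathlib.Algebra.Order.Ring.Star
import Mathlib.MeasureTheory.Measure.Haar.InnerProductSpace
import Mathlib.Algebra.Order.Star.Real
import Mathlib.Analysis.SpecialFunctions.Integrals.Basic
import Mathlib.Analysis.Convex.GaugeRescale
import Mathlib.MeasureTheory.Measure.Lebesgue.Integral
import Mathlib.RingTheory.PiTensorProduct
import Pool.Agent.MP_9020c0_gt.Defs

-- ======== part 0: formerly Pool.Agent.MP_9020c0_gt.Region
section MrgPart0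

set_option autoImplicit false

open MeasureTheory Set
open scoped ENNReal NNReal Pointwise

namespace Pool.Agent.MP_9020c0_gt

/-- The point with given coordinates. -/
noncomputable def pt (x y : ℝ) : Plane := !₂[x, y]

@[simp] lemma pt_zero (x y : ℝ) : pt x y 0 = x := rfl
@[simp] lemma pt_one (x y : ℝ) : pt x y 1 = y := rfl

lemma pt_eta (p : Plane) : pt (p 0) (p 1) = p := by
  ext i
  fin_cases i <;> rfl

lemma plane_ext {p q : Plane} (h0 : p 0 = q 0) (h1 : p 1 = q 1) : p = q := by
  rw [← pt_eta p, ← pt_eta q, h0, h1]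

lemma continuous_pt {α : Type*} [TopologicalSpace α] {f g : α → ℝ} (hf : Continuous f)
    (hg : Continuous g) : Continuous fun a => pt (f a) (g a) := by
  unfold pt
  refine (PiLp.continuous_toLp 2 _).comp ?_
  refine continuous_pi fun i => ?_
  fin_cases i
  · simpa using hf
  · simpa using hg

lemma continuous_c0 : Continuous fun p : Plane => p 0 := by fun_prop
lemma continuous_c1 : Continuous fun p : Plane => p 1 := by fun_prop

lemma dist_plane (p q : Plane) : dist p q = √((p 0 - q 0) ^ 2 + (p 1 - q 1) ^ 2) := by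
  rw [EuclideanSpace.dist_eq, Fin.sum_univ_two, Real.dist_eq, Real.dist_eq, sq_abs, sq_abs]

/-- The closed region between two graphs. -/
def region (a b : ℝ) (f g : ℝ → ℝ) : Set Plane :=
  {p | a ≤ p 0 ∧ p 0 ≤ b ∧ f (p 0) ≤ p 1 ∧ p 1 ≤ g (p 0)}

/-- The open region between two graphs. -/
def oregion (a b : ℝ) (f g : ℝ → ℝ) : Set Plane :=
  {p | a < p 0 ∧ p 0 < b ∧ f (p 0) < p 1 ∧ p 1 < g (p 0)}

/-- The graph of a function over an interval. -/
def graph (f : ℝ → ℝ) (a b : ℝ) : Set Plane := (fun x => pt x (f x)) '' Icc a b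

/-- A vertical segment. -/
def vseg (a c d : ℝ) : Set Plane := (fun y => pt a y) '' Icc c d

lemma isClosed_region {a b : ℝ} {f g : ℝ → ℝ} (hf : Continuous f) (hg : Continuous g) :
    IsClosed (region a b f g) := by
  have h1 : IsClosed {p : Plane | a ≤ p 0} := isClosed_le continuous_const continuous_c0
  have h2 : IsClosed {p : Plane | p 0 ≤ b} := isClosed_le continuous_c0 continuous_const
  have h3 : IsClosed {p : Plane | f (p 0) ≤ p 1} :=
    isClosed_le (hf.comp continuous_c0) continuous_c1
  have h4 : IsClosed {p : Plane | p 1 ≤ g (p 0)} :=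
    isClosed_le continuous_c1 (hg.comp continuous_c0)
  exact h1.inter (h2.inter (h3.inter h4))

lemma isOpen_oregion {a b : ℝ} {f g : ℝ → ℝ} (hf : Continuous f) (hg : Continuous g) :
    IsOpen (oregion a b f g) := by
  have h1 : IsOpen {p : Plane | a < p 0} := isOpen_lt continuous_const continuous_c0
  have h2 : IsOpen {p : Plane | p 0 < b} := isOpen_lt continuous_c0 continuous_const
  have h3 : IsOpen {p : Plane | f (p 0) < p 1} :=
    isOpen_lt (hf.comp continuous_c0) continuous_c1
  have h4 : IsOpen {p : Plane | p 1 < g (p 0)} :=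
    isOpen_lt continuous_c1 (hg.comp continuous_c0)
  exact h1.inter (h2.inter (h3.inter h4))

lemma oregion_subset {a b : ℝ} {f g : ℝ → ℝ} : oregion a b f g ⊆ region a b f g :=
  fun _ h => ⟨h.1.le, h.2.1.le, h.2.2.1.le, h.2.2.2.le⟩

lemma oregion_subset_interior {a b : ℝ} {f g : ℝ → ℝ} (hf : Continuous f) (hg : Continuous g) :
    oregion a b f g ⊆ interior (region a b f g) :=
  interior_maximal oregion_subset (isOpen_oregion hf hg)

lemma interior_region_subset {a b : ℝ} {f g : ℝ → ℝ} :
    interior (region a b f g) ⊆ oregion a b f g := by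
  intro p hp
  rw [mem_interior_iff_mem_nhds, Metric.mem_nhds_iff] at hp
  obtain ⟨ε, hε, hsub⟩ := hp
  have key : ∀ u v : ℝ, u ^ 2 + v ^ 2 = (ε / 2) ^ 2 → pt (p 0 + u) (p 1 + v) ∈ region a b f g := by
    intro u v huv
    apply hsub
    rw [Metric.mem_ball, dist_plane]
    simp only [pt_zero, pt_one, add_sub_cancel_left]
    rw [huv, Real.sqrt_sq (by linarith)]
    linarith
  have k1 := (key (-(ε / 2)) 0 (by ring)).1
  have k2 := (key (ε / 2) 0 (by ring)).2.1
  have k3 := (key 0 (-(ε / 2)) (by ring)).2.2.1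
  have k4 := (key 0 (ε / 2) (by ring)).2.2.2
  simp only [pt_zero, pt_one, add_zero] at k1 k2 k3 k4
  exact ⟨by linarith, by linarith, by linarith, by linarith⟩

lemma frontier_region_subset {a b : ℝ} {f g : ℝ → ℝ} (hf : Continuous f) (hg : Continuous g) :
    frontier (region a b f g) ⊆
      graph f a b ∪ graph g a b ∪ vseg a (f a) (g a) ∪ vseg b (f b) (g b) := by
  intro p hp
  rw [(isClosed_region hf hg).frontier_eq] at hp
  obtain ⟨⟨h1, h2, h3, h4⟩, hn⟩ := hp
  have hn' : p ∉ oregion a b f g := fun h => hn (oregion_subset_interior hf hg h)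
  rcases h1.eq_or_lt with h1' | h1'
  · refine Or.inl (Or.inr ⟨p 1, ⟨h1' ▸ h3, h1' ▸ h4⟩, ?_⟩)
    simp only [h1', pt_eta]
  rcases h2.eq_or_lt with h2' | h2'
  · refine Or.inr ⟨p 1, ⟨h2' ▸ h3, h2' ▸ h4⟩, ?_⟩
    simp only [← h2', pt_eta]
  rcases h3.eq_or_lt with h3' | h3'
  · refine Or.inl (Or.inl (Or.inl ⟨p 0, ⟨h1, h2⟩, ?_⟩))
    simp only [h3', pt_eta]
  rcases h4.eq_or_lt with h4' | h4'
  · refine Or.inl (Or.inl (Or.inr ⟨p 0, ⟨h1, h2⟩, ?_⟩))
    simp only [← h4', pt_eta]
  exact absurd ⟨h1', h2', h3', h4'⟩ hn'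

lemma length_vseg (a c d : ℝ) : μH[1] (vseg a c d) ≤ ENNReal.ofReal (d - c) := by
  have hL : LipschitzWith 1 (fun y => pt a y) := by
    refine LipschitzWith.of_dist_le_mul fun x y => ?_
    rw [dist_plane]
    simp only [pt_zero, pt_one, sub_self, NNReal.coe_one, one_mul]
    rw [Real.dist_eq, ← Real.sqrt_sq_eq_abs]
    apply le_of_eq
    congr 1
    ring
  have := hL.hausdorffMeasure_image_le (d := 1) zero_le_one (Icc c d)
  simpa [vseg] using this

/-- Length and integral data for a function on an interval. -/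
structure Nice (F : ℝ → ℝ) (p q l A : ℝ) : Prop where
  le : p ≤ q
  nonneg : 0 ≤ l
  len : μH[1] (graph F p q) ≤ ENNReal.ofReal l
  int : ∫ x in p..q, F x = A

lemma nice_affine {F : ℝ → ℝ} {p q : ℝ} (α β l A : ℝ) (hpq : p ≤ q)
    (hF : ∀ x, p ≤ x → x ≤ q → F x = α + β * x) (hl : 0 ≤ l)
    (hl2 : (q - p) ^ 2 * (1 + β ^ 2) ≤ l ^ 2) (hA : A = α * (q - p) + β * (q ^ 2 - p ^ 2) / 2) :
    Nice F p q l A := by
  refine ⟨hpq, hl, ?_, ?_⟩
  · have hg : graph F p q = (fun x => pt x (α + β * x)) '' Icc p q := by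
      unfold graph
      refine image_congr fun x hx => ?_
      rw [hF x hx.1 hx.2]
    have hL : LipschitzWith (Real.toNNReal √(1 + β ^ 2)) (fun x => pt x (α + β * x)) := by
      refine LipschitzWith.of_dist_le_mul fun x y => ?_
      rw [dist_plane]
      simp only [pt_zero, pt_one]
      rw [Real.coe_toNNReal _ (Real.sqrt_nonneg _), Real.dist_eq, ← Real.sqrt_sq_eq_abs,
        ← Real.sqrt_mul (by positivity)]
      apply le_of_eq
      congr 1
      ring
    have := hL.hausdorffMeasure_image_le (d := 1) zero_le_one (Icc p q)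
    rw [hg]
    refine this.trans ?_
    rw [hausdorffMeasure_real, Real.volume_Icc, ENNReal.rpow_one]
    change ENNReal.ofReal √(1 + β ^ 2) * _ ≤ _
    rw [← ENNReal.ofReal_mul (Real.sqrt_nonneg _)]
    apply ENNReal.ofReal_le_ofReal
    have h1 : √(1 + β ^ 2) * (q - p) = √((q - p) ^ 2 * (1 + β ^ 2)) := by
      rw [Real.sqrt_mul (by positivity), Real.sqrt_sq (by linarith), mul_comm]
    rw [h1]
    exact Real.sqrt_le_iff.2 ⟨hl, hl2⟩
  · have : ∫ x in p..q, F x = ∫ x in p..q, (α + β * x) := by
      refine intervalIntegral.integral_congr fun x hx => ?_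
      rw [uIcc_of_le hpq] at hx
      exact hF x hx.1 hx.2
    have hi : IntervalIntegrable (fun x : ℝ => β * x) volume p q :=
      (by fun_prop : Continuous fun x : ℝ => β * x).intervalIntegrable _ _
    rw [this, intervalIntegral.integral_add intervalIntegrable_const hi,
      intervalIntegral.integral_const_mul, integral_id, intervalIntegral.integral_const, hA]
    simp only [smul_eq_mul]
    ring

lemma Nice.trans {F : ℝ → ℝ} (hF : Continuous F) {p q r l l' A A' : ℝ} (h : Nice F p q l A)
    (h' : Nice F q r l' A') : Nice F p r (l + l') (A + A') := by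
  refine ⟨h.le.trans h'.le, add_nonneg h.nonneg h'.nonneg, ?_, ?_⟩
  · have : graph F p r = graph F p q ∪ graph F q r := by
      unfold graph
      rw [← image_union, Icc_union_Icc_eq_Icc h.le h'.le]
    rw [this, ENNReal.ofReal_add h.nonneg h'.nonneg]
    exact (measure_union_le _ _).trans (add_le_add h.len h'.len)
  · rw [← h.int, ← h'.int]
    exact (intervalIntegral.integral_add_adjacent_intervals (hF.intervalIntegrable _ _)
      (hF.intervalIntegrable _ _)).symm

lemma volume_region_ge {a b : ℝ} {f g : ℝ → ℝ} (hf : Continuous f) (hg : Continuous g)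
    (hab : a ≤ b) (hfg : ∀ x, a ≤ x → x ≤ b → f x ≤ g x) :
    ENNReal.ofReal ((∫ x in a..b, g x) - ∫ x in a..b, f x) ≤ volume (region a b f g) := by
  have hmp : MeasurePreserving (fun p : Plane => (p 0, p 1)) volume volume :=
    (volume_preserving_finTwoArrow ℝ).comp (PiLp.volume_preserving_ofLp (Fin 2))
  have h1 := volume_regionBetween_eq_integral (μ := volume) (f := f) (g := g) (s := Icc a b)
    (hf.continuousOn.integrableOn_compact isCompact_Icc)
    (hg.continuousOn.integrableOn_compact isCompact_Icc) measurableSet_Icc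
    (fun x hx => hfg x hx.1 hx.2)
  have h2 := hmp.measure_preimage
    (measurableSet_regionBetween hf.measurable hg.measurable
      (measurableSet_Icc (a := a) (b := b))).nullMeasurableSet
  rw [← intervalIntegral.integral_sub (hg.intervalIntegrable _ _) (hf.intervalIntegrable _ _),
    intervalIntegral.integral_of_le hab, ← integral_Icc_eq_integral_Ioc]
  refine le_trans (le_of_eq ?_) (measure_mono (s := (fun p : Plane => (p 0, p 1)) ⁻¹'
    regionBetween f g (Icc a b)) ?_)
  · rw [h2, Measure.volume_eq_prod, h1]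
    rfl
  · intro p hp
    exact ⟨hp.1.1, hp.1.2, hp.2.1.le, hp.2.2.le⟩

lemma isBounded_region {a b : ℝ} {f g : ℝ → ℝ} {c d : ℝ}
    (hf : ∀ x, a ≤ x → x ≤ b → c ≤ f x) (hg : ∀ x, a ≤ x → x ≤ b → g x ≤ d) :
    Bornology.IsBounded (region a b f g) := by
  rw [Metric.isBounded_iff]
  refine ⟨√((b - a) ^ 2 + (d - c) ^ 2), fun p hp q hq => ?_⟩
  rw [dist_plane]
  apply Real.sqrt_le_sqrt
  obtain ⟨p1, p2, p3, p4⟩ := hp
  obtain ⟨q1, q2, q3, q4⟩ := hq
  have := hf _ p1 p2
  have := hf _ q1 q2
  have := hg _ p1 p2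
  have := hg _ q1 q2
  have e1 : (p 0 - q 0) ^ 2 ≤ (b - a) ^ 2 := sq_le_sq' (by linarith) (by linarith)
  have e2 : (p 1 - q 1) ^ 2 ≤ (d - c) ^ 2 := sq_le_sq' (by linarith) (by linarith)
  linarith

lemma ratio_region {a b : ℝ} {f g : ℝ → ℝ} (hf : Continuous f) (hg : Continuous g)
    (hfg : ∀ x, a ≤ x → x ≤ b → f x ≤ g x) {l l' A A' c : ℝ} (h : Nice f a b l A)
    (h' : Nice g a b l' A') (hA : 0 < A' - A)
    (hc : (l + l' + (g a - f a) + (g b - f b)) ^ 2 ≤ c * (A' - A)) :
    isoRatio (region a b f g) ≤ ENNReal.ofReal c := by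
  have ha : 0 ≤ g a - f a := sub_nonneg.2 (hfg a le_rfl h.le)
  have hb : 0 ≤ g b - f b := sub_nonneg.2 (hfg b h.le le_rfl)
  have hl := h.nonneg
  have hl' := h'.nonneg
  have hL : μH[1] (frontier (region a b f g)) ≤
      ENNReal.ofReal (l + l' + (g a - f a) + (g b - f b)) := by
    refine (measure_mono (frontier_region_subset hf hg)).trans ?_
    rw [ENNReal.ofReal_add (by positivity) hb, ENNReal.ofReal_add (by positivity) ha,
      ENNReal.ofReal_add hl hl']
    refine (measure_union_le _ _).trans (add_le_add ?_ (length_vseg _ _ _))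
    refine (measure_union_le _ _).trans (add_le_add ?_ (length_vseg _ _ _))
    exact (measure_union_le _ _).trans (add_le_add h.len h'.len)
  have hV := volume_region_ge hf hg h.le hfg
  rw [h.int, h'.int] at hV
  unfold isoRatio
  refine (ENNReal.div_le_div (pow_le_pow_left' hL 2) hV).trans ?_
  rw [← ENNReal.ofReal_pow (by positivity), ← ENNReal.ofReal_div_of_pos hA]
  apply ENNReal.ofReal_le_ofReal
  rwa [div_le_iff₀ hA]

lemma disc_of_convex {C : Set Plane} (hc : Convex ℝ C) (hne : (interior C).Nonempty)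
    (hb : Bornology.IsBounded C) (hcl : IsClosed C) :
    Nonempty (C ≃ₜ Metric.closedBall (0 : Plane) 1) := by
  obtain ⟨h, -, h2, -⟩ := exists_homeomorph_image_interior_closure_frontier_eq_unitBall hc hne hb
  rw [hcl.closure_eq] at h2
  exact ⟨(h.image C).trans (Homeomorph.setCongr h2)⟩

lemma convex_half (α β γ : ℝ) : Convex ℝ {p : Plane | α * p 0 + β * p 1 ≤ γ} := by
  intro p hp q hq u v hu hv huv
  simp only [mem_ofPred_eq, PiLp.add_apply, PiLp.smul_apply, smul_eq_mul] at *
  have h1 := mul_le_mul_of_nonneg_left hp hu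
  have h2 := mul_le_mul_of_nonneg_left hq hv
  have h3 : γ = u * γ + v * γ := by rw [← add_mul, huv, one_mul]
  nlinarith

/-- A vertical shear and rescaling of the plane. -/
noncomputable def shear (f s : ℝ → ℝ) (hf : Continuous f) (hs : Continuous s)
    (hpos : ∀ x, 0 < s x) : Plane ≃ₜ Plane where
  toFun q := pt (q 0) (f (q 0) + s (q 0) * q 1)
  invFun p := pt (p 0) ((p 1 - f (p 0)) / s (p 0))
  left_inv q := by
    apply plane_ext
    · simp
    · have := (hpos (q 0)).ne'
      simp only [pt_zero, pt_one]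
      field_simp
      ring
  right_inv p := by
    apply plane_ext
    · simp
    · have := (hpos (p 0)).ne'
      simp only [pt_zero, pt_one]
      field_simp
      ring
  continuous_toFun := continuous_pt continuous_c0
    ((hf.comp continuous_c0).add ((hs.comp continuous_c0).mul continuous_c1))
  continuous_invFun := continuous_pt continuous_c0
    ((continuous_c1.sub (hf.comp continuous_c0)).div (hs.comp continuous_c0)
      fun p => (hpos _).ne')

lemma disc_region {a b : ℝ} {f g : ℝ → ℝ} (hf : Continuous f) (hg : Continuous g) (hab : a < b)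
    (hfg : ∀ x, a ≤ x → x ≤ b → f x + 1 ≤ g x) :
    Nonempty (region a b f g ≃ₜ Metric.closedBall (0 : Plane) 1) := by
  have hs : Continuous fun x => max 1 (g x - f x) := continuous_const.max (hg.sub hf)
  have hpos : ∀ x, 0 < max 1 (g x - f x) := fun x => lt_max_of_lt_left one_pos
  have hR : Convex ℝ (region a b (fun _ => 0) (fun _ => 1)) := by
    have : region a b (fun _ => 0) (fun _ => 1) =
        {p : Plane | (-1) * p 0 + 0 * p 1 ≤ -a} ∩ ({p : Plane | 1 * p 0 + 0 * p 1 ≤ b} ∩
          ({p : Plane | 0 * p 0 + (-1) * p 1 ≤ 0} ∩ {p : Plane | 0 * p 0 + 1 * p 1 ≤ 1})) := by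
      ext p
      simp [region]
    rw [this]
    exact (convex_half _ _ _).inter ((convex_half _ _ _).inter
      ((convex_half _ _ _).inter (convex_half _ _ _)))
  obtain ⟨e⟩ := disc_of_convex hR
    ⟨pt ((a + b) / 2) (1 / 2), oregion_subset_interior continuous_const continuous_const
      ⟨by simp only [pt_zero]; linarith, by simp only [pt_zero]; linarith,
        by simp only [pt_one]; norm_num, by simp only [pt_one]; norm_num⟩⟩
    (isBounded_region (c := 0) (d := 1) (fun _ _ _ => le_rfl) (fun _ _ _ => le_rfl))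
    (isClosed_region continuous_const continuous_const)
  have himg : shear f _ hf hs hpos '' region a b (fun _ => 0) (fun _ => 1) = region a b f g := by
    ext p
    constructor
    · rintro ⟨q, ⟨h1, h2, h3, h4⟩, rfl⟩
      have hm : max 1 (g (q 0) - f (q 0)) = g (q 0) - f (q 0) :=
        max_eq_right (by linarith [hfg _ h1 h2])
      have := hfg _ h1 h2
      refine ⟨h1, h2, ?_, ?_⟩
      · change f (q 0) ≤ f (q 0) + max 1 (g (q 0) - f (q 0)) * q 1
        rw [hm]
        nlinarith
      · change f (q 0) + max 1 (g (q 0) - f (q 0)) * q 1 ≤ g (q 0)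
        rw [hm]
        nlinarith
    · rintro ⟨h1, h2, h3, h4⟩
      refine ⟨(shear f _ hf hs hpos).symm p, ⟨h1, h2, ?_, ?_⟩, Homeomorph.apply_symm_apply _ _⟩
      · change 0 ≤ (p 1 - f (p 0)) / max 1 (g (p 0) - f (p 0))
        exact div_nonneg (by linarith) (hpos _).le
      · change (p 1 - f (p 0)) / max 1 (g (p 0) - f (p 0)) ≤ 1
        rw [div_le_one (hpos _)]
        exact le_max_of_le_right (by linarith)
  exact ⟨((Homeomorph.setCongr himg).symm.trans ((shear f _ hf hs hpos).image _).symm).trans e⟩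

end Pool.Agent.MP_9020c0_gt

end MrgPart0

-- ======== part 1: formerly Pool.Agent.MP_9020c0_gt.Tiles
section MrgPart1

set_option autoImplicit false

open MeasureTheory Set
open scoped ENNReal NNReal Pointwise

namespace Pool.Agent.MP_9020c0_gt

/-- Profile of the lower boundary of the big tile. -/
noncomputable def lo (t : ℝ) : ℝ := max (8 / 15 * t) (min (4 * t - 208) ((2 * t - 14) / 3))

/-- Profile of the upper boundary of the big tile. -/
noncomputable def up (t : ℝ) : ℝ := min (max 140 ((418 + 2 * t) / 3)) (110 + 8 / 15 * (64 - t))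

lemma continuous_lo : Continuous lo := by unfold lo; fun_prop
lemma continuous_up : Continuous up := by unfold up; fun_prop

lemma lo_a {t : ℝ} (h : t ≤ 60) : lo t = 8 / 15 * t :=
  max_eq_left ((min_le_left _ _).trans (by linarith))

lemma lo_b {t : ℝ} (h : 60 ≤ t) (h' : t ≤ 61) : lo t = 4 * t - 208 := by
  unfold lo
  rw [min_eq_left (by linarith), max_eq_right (by linarith)]

lemma lo_c {t : ℝ} (h : 61 ≤ t) : lo t = (2 * t - 14) / 3 := by
  unfold lo
  rw [min_eq_right (by linarith), max_eq_right (by linarith)]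

lemma up_a {t : ℝ} (h' : t ≤ 1) : up t = 140 := by
  unfold up
  rw [max_eq_left (by linarith), min_eq_left (by linarith)]

lemma up_b {t : ℝ} (h : 1 ≤ t) (h' : t ≤ 4) : up t = (418 + 2 * t) / 3 := by
  unfold up
  rw [max_eq_right (by linarith), min_eq_left (by linarith)]

lemma up_c {t : ℝ} (h : 4 ≤ t) : up t = 110 + 8 / 15 * (64 - t) := by
  unfold up
  rw [max_eq_right (by linarith), min_eq_right (by linarith)]

lemma lo_bounds {t : ℝ} (h : 0 ≤ t) (h' : t ≤ 64) : 0 ≤ lo t ∧ lo t ≤ 38 := by
  rcases le_total t 60 with h1 | h1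
  · rw [lo_a h1]; constructor <;> linarith
  rcases le_total t 61 with h2 | h2
  · rw [lo_b h1 h2]; constructor <;> linarith
  · rw [lo_c h2]; constructor <;> linarith

lemma up_bounds {t : ℝ} (h' : t ≤ 64) : 110 ≤ up t ∧ up t ≤ 142 := by
  rcases le_total t 1 with h1 | h1
  · rw [up_a h1]; constructor <;> linarith
  rcases le_total t 4 with h2 | h2
  · rw [up_b h1 h2]; constructor <;> linarith
  · rw [up_c h2]; constructor <;> linarith

lemma up_le_lo (t : ℝ) : up t ≤ 110 + lo (64 - t) := by
  have h : 8 / 15 * (64 - t) ≤ lo (64 - t) := le_max_left _ _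
  exact (min_le_right _ _).trans (by linarith)

lemma up_eq_lo {t : ℝ} (h : 4 ≤ t) : up t = 110 + lo (64 - t) := by
  rw [up_c h, lo_a (by linarith)]

/-- Lower boundary of the big tile. -/
noncomputable def fB (x : ℝ) : ℝ := lo |x|
/-- Upper boundary of the big tile, and lower boundary of the small tile. -/
noncomputable def gB (x : ℝ) : ℝ := up |x|
/-- Upper boundary of the small tile. -/
noncomputable def gS (x : ℝ) : ℝ := 110 + lo (64 - |x|)

lemma continuous_fB : Continuous fB := continuous_lo.comp continuous_abs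
lemma continuous_gB : Continuous gB := continuous_up.comp continuous_abs
lemma continuous_gS : Continuous gS :=
  continuous_const.add (continuous_lo.comp (continuous_const.sub continuous_abs))

/-- The big tile. -/
def big : Set Plane := region (-64) 64 fB gB
/-- The small tile, a convex heptagon. -/
def small : Set Plane := region (-4) 4 gB gS

lemma nice_fB : Nice fB (-64) 64
    (3.6056 + 4.1232 + 68 + 68 + 4.1232 + 3.6056) (111 + 34 + 960 + 960 + 34 + 111) := by
  have h1 : Nice fB (-64) (-61) 3.6056 111 :=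
    nice_affine (-14 / 3) (-2 / 3) _ _ (by norm_num) (fun x h h' => by
      unfold fB; rw [abs_of_nonpos (by linarith), lo_c (by linarith)]; ring)
      (by norm_num) (by norm_num) (by norm_num)
  have h2 : Nice fB (-61) (-60) 4.1232 34 :=
    nice_affine (-208) (-4) _ _ (by norm_num) (fun x h h' => by
      unfold fB; rw [abs_of_nonpos (by linarith), lo_b (by linarith) (by linarith)]; ring)
      (by norm_num) (by norm_num) (by norm_num)
  have h3 : Nice fB (-60) 0 68 960 :=
    nice_affine 0 (-8 / 15) _ _ (by norm_num) (fun x h h' => by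
      unfold fB; rw [abs_of_nonpos (by linarith), lo_a (by linarith)]; ring)
      (by norm_num) (by norm_num) (by norm_num)
  have h4 : Nice fB 0 60 68 960 :=
    nice_affine 0 (8 / 15) _ _ (by norm_num) (fun x h h' => by
      unfold fB; rw [abs_of_nonneg (by linarith), lo_a (by linarith)]; ring)
      (by norm_num) (by norm_num) (by norm_num)
  have h5 : Nice fB 60 61 4.1232 34 :=
    nice_affine (-208) 4 _ _ (by norm_num) (fun x h h' => by
      unfold fB; rw [abs_of_nonneg (by linarith), lo_b (by linarith) (by linarith)]; ring)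
      (by norm_num) (by norm_num) (by norm_num)
  have h6 : Nice fB 61 64 3.6056 111 :=
    nice_affine (-14 / 3) (2 / 3) _ _ (by norm_num) (fun x h h' => by
      unfold fB; rw [abs_of_nonneg (by linarith), lo_c (by linarith)]; ring)
      (by norm_num) (by norm_num) (by norm_num)
  exact ((((h1.trans continuous_fB h2).trans continuous_fB h3).trans continuous_fB h4).trans
    continuous_fB h5).trans continuous_fB h6

lemma nice_gB_mid : Nice gB (-4) 4 (3.6056 + 2 + 3.6056) (423 + 280 + 423) := by
  have h1 : Nice gB (-4) (-1) 3.6056 423 :=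
    nice_affine (418 / 3) (-2 / 3) _ _ (by norm_num) (fun x h h' => by
      unfold gB; rw [abs_of_nonpos (by linarith), up_b (by linarith) (by linarith)]; ring)
      (by norm_num) (by norm_num) (by norm_num)
  have h2 : Nice gB (-1) 1 2 280 :=
    nice_affine 140 0 _ _ (by norm_num) (fun x h h' => by
      unfold gB; rw [up_a (abs_le.2 ⟨h, h'⟩)]; ring)
      (by norm_num) (by norm_num) (by norm_num)
  have h3 : Nice gB 1 4 3.6056 423 :=
    nice_affine (418 / 3) (2 / 3) _ _ (by norm_num) (fun x h h' => by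
      unfold gB; rw [abs_of_nonneg (by linarith), up_b (by linarith) (by linarith)]; ring)
      (by norm_num) (by norm_num) (by norm_num)
  exact (h1.trans continuous_gB h2).trans continuous_gB h3

lemma nice_gB : Nice gB (-64) 64 (68 + (3.6056 + 2 + 3.6056) + 68)
    (7560 + (423 + 280 + 423) + 7560) := by
  have h1 : Nice gB (-64) (-4) 68 7560 :=
    nice_affine (110 + 8 / 15 * 64) (8 / 15) _ _ (by norm_num) (fun x h h' => by
      unfold gB; rw [abs_of_nonpos (by linarith), up_c (by linarith)]; ring)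
      (by norm_num) (by norm_num) (by norm_num)
  have h3 : Nice gB 4 64 68 7560 :=
    nice_affine (110 + 8 / 15 * 64) (-8 / 15) _ _ (by norm_num) (fun x h h' => by
      unfold gB; rw [abs_of_nonneg (by linarith), up_c (by linarith)]; ring)
      (by norm_num) (by norm_num) (by norm_num)
  exact (h1.trans continuous_gB nice_gB_mid).trans continuous_gB h3

lemma nice_gS : Nice gS (-4) 4 (4.1232 + 3.6056 + 3.6056 + 4.1232) (144 + 441 + 441 + 144) := by
  have h1 : Nice gS (-4) (-3) 4.1232 144 :=
    nice_affine 158 4 _ _ (by norm_num) (fun x h h' => by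
      unfold gS; rw [abs_of_nonpos (by linarith), lo_b (by linarith) (by linarith)]; ring)
      (by norm_num) (by norm_num) (by norm_num)
  have h2 : Nice gS (-3) 0 3.6056 441 :=
    nice_affine 148 (2 / 3) _ _ (by norm_num) (fun x h h' => by
      unfold gS; rw [abs_of_nonpos (by linarith), lo_c (by linarith)]; ring)
      (by norm_num) (by norm_num) (by norm_num)
  have h3 : Nice gS 0 3 3.6056 441 :=
    nice_affine 148 (-2 / 3) _ _ (by norm_num) (fun x h h' => by
      unfold gS; rw [abs_of_nonneg (by linarith), lo_c (by linarith)]; ring)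
      (by norm_num) (by norm_num) (by norm_num)
  have h4 : Nice gS 3 4 4.1232 144 :=
    nice_affine 158 (-4) _ _ (by norm_num) (fun x h h' => by
      unfold gS; rw [abs_of_nonneg (by linarith), lo_b (by linarith) (by linarith)]; ring)
      (by norm_num) (by norm_num) (by norm_num)
  exact ((h1.trans continuous_gS h2).trans continuous_gS h3).trans continuous_gS h4

lemma fB_bounds {x : ℝ} (h : -64 ≤ x) (h' : x ≤ 64) : 0 ≤ fB x ∧ fB x ≤ 38 :=
  lo_bounds (abs_nonneg x) (abs_le.2 ⟨h, h'⟩)

lemma gB_bounds {x : ℝ} (h : -64 ≤ x) (h' : x ≤ 64) : 110 ≤ gB x ∧ gB x ≤ 142 :=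
  up_bounds (abs_le.2 ⟨h, h'⟩)

lemma gS_bounds {x : ℝ} (h : -64 ≤ x) (h' : x ≤ 64) : 110 ≤ gS x ∧ gS x ≤ 148 := by
  have := lo_bounds (t := 64 - |x|) (by linarith [abs_le.2 ⟨h, h'⟩]) (by linarith [abs_nonneg x])
  unfold gS
  constructor <;> linarith [this.1, this.2]

lemma ratio_big : isoRatio big ≤ ENNReal.ofReal 13.84 := by
  have e1 : fB (-64) = 38 := by
    unfold fB; rw [abs_of_nonpos (by norm_num), lo_c (by norm_num)]; norm_num
  have e2 : fB 64 = 38 := by
    unfold fB; rw [abs_of_nonneg (by norm_num), lo_c (by norm_num)]; norm_num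
  have e3 : gB (-64) = 110 := by
    unfold gB; rw [abs_of_nonpos (by norm_num), up_c (by norm_num)]; norm_num
  have e4 : gB 64 = 110 := by
    unfold gB; rw [abs_of_nonneg (by norm_num), up_c (by norm_num)]; norm_num
  refine ratio_region continuous_fB continuous_gB
    (fun x h h' => by linarith [(fB_bounds h h').2, (gB_bounds h h').1]) nice_fB nice_gB
    (by norm_num) ?_
  rw [e1, e2, e3, e4]
  norm_num

lemma ratio_small : isoRatio small ≤ ENNReal.ofReal 13.84 := by
  have e1 : gB (-4) = gS (-4) := up_eq_lo (by rw [abs_of_nonpos (by norm_num)]; norm_num)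
  have e2 : gB 4 = gS 4 := up_eq_lo (by rw [abs_of_nonneg (by norm_num)])
  refine ratio_region continuous_gB continuous_gS
    (fun x _ _ => up_le_lo _) nice_gB_mid nice_gS (by norm_num) ?_
  rw [e1, e2]
  norm_num

lemma isBounded_big : Bornology.IsBounded big :=
  isBounded_region (c := 0) (d := 142) (fun _ h h' => (fB_bounds h h').1)
    (fun _ h h' => (gB_bounds h h').2)

lemma isBounded_small : Bornology.IsBounded small :=
  isBounded_region (c := 110) (d := 148)
    (fun _ h h' => (gB_bounds (by linarith) (by linarith)).1)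
    (fun _ h h' => (gS_bounds (by linarith) (by linarith)).2)

lemma isTile_big : IsTile big :=
  ⟨isBounded_big, disc_region continuous_fB continuous_gB (by norm_num)
    (fun x h h' => by linarith [(fB_bounds h h').2, (gB_bounds h h').1])⟩

lemma convex_small : Convex ℝ small := by
  have : small = {p : Plane | (-1) * p 0 + 0 * p 1 ≤ 4} ∩ ({p : Plane | 1 * p 0 + 0 * p 1 ≤ 4} ∩
      ({p : Plane | 0 * p 0 + (-1) * p 1 ≤ -140} ∩ ({p : Plane | 2 * p 0 + (-3) * p 1 ≤ -418} ∩
      ({p : Plane | (-2) * p 0 + (-3) * p 1 ≤ -418} ∩ ({p : Plane | 4 * p 0 + 1 * p 1 ≤ 158} ∩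
      ({p : Plane | (-4) * p 0 + 1 * p 1 ≤ 158} ∩ ({p : Plane | 2 * p 0 + 3 * p 1 ≤ 444} ∩
      {p : Plane | (-2) * p 0 + 3 * p 1 ≤ 444}))))))) := by
    ext p
    simp only [small, region, gB, gS, mem_inter_iff, mem_ofPred_eq]
    have hx1 := le_abs_self (p 0)
    have hx2 := neg_abs_le (p 0)
    have hx3 := abs_nonneg (p 0)
    constructor
    · rintro ⟨h1, h2, h3, h4⟩
      have hx4 : |p 0| ≤ 4 := abs_le.2 ⟨h1, h2⟩
      have a1 : 140 ≤ p 1 ∧ (418 + 2 * |p 0|) / 3 ≤ p 1 := by
        rcases le_total |p 0| 1 with h | h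
        · rw [up_a h] at h3; constructor <;> linarith
        · rw [up_b h hx4] at h3; constructor <;> linarith
      have a2 : p 1 ≤ 158 - 4 * |p 0| ∧ p 1 ≤ 148 - 2 / 3 * |p 0| := by
        rcases le_total |p 0| 3 with h | h
        · rw [lo_c (by linarith)] at h4; constructor <;> linarith
        · rw [lo_b (by linarith) (by linarith)] at h4; constructor <;> linarith
      obtain ⟨a1, a3⟩ := a1
      obtain ⟨a2, a4⟩ := a2
      refine ⟨?_, ?_, ?_, ?_, ?_, ?_, ?_, ?_, ?_⟩ <;> linarith
    · rintro ⟨h1, h2, h3, h4, h5, h6, h7, h8, h9⟩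
      have hx4 : |p 0| ≤ 4 := abs_le.2 ⟨by linarith, by linarith⟩
      refine ⟨by linarith, by linarith, ?_, ?_⟩
      · rcases le_total |p 0| 1 with h | h
        · rw [up_a h]; linarith
        · rw [up_b h hx4]
          rcases abs_cases (p 0) with ⟨e, -⟩ | ⟨e, -⟩ <;> linarith
      · rcases le_total |p 0| 3 with h | h
        · rw [lo_c (by linarith)]
          rcases abs_cases (p 0) with ⟨e, -⟩ | ⟨e, -⟩ <;> linarith
        · rw [lo_b (by linarith) (by linarith)]
          rcases abs_cases (p 0) with ⟨e, -⟩ | ⟨e, -⟩ <;> linarith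
  rw [this]
  exact (convex_half _ _ _).inter ((convex_half _ _ _).inter ((convex_half _ _ _).inter
    ((convex_half _ _ _).inter ((convex_half _ _ _).inter ((convex_half _ _ _).inter
    ((convex_half _ _ _).inter ((convex_half _ _ _).inter (convex_half _ _ _))))))))

lemma fB_zero : fB 0 = 0 := by
  unfold fB; rw [abs_zero, lo_a (by norm_num)]; norm_num

lemma gB_zero : gB 0 = 140 := by
  unfold gB; rw [abs_zero, up_a (by norm_num)]

lemma gS_zero : gS 0 = 148 := by
  unfold gS; rw [abs_zero, lo_c (by norm_num)]; norm_num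

lemma isTile_small : IsTile small := by
  refine ⟨isBounded_small, disc_of_convex convex_small ⟨pt 0 144, ?_⟩ isBounded_small
    (isClosed_region continuous_gB continuous_gS)⟩
  refine oregion_subset_interior continuous_gB continuous_gS ⟨?_, ?_, ?_, ?_⟩
  · simp
  · simp
  · simp only [pt_zero, pt_one, gB_zero]; norm_num
  · simp only [pt_zero, pt_one, gS_zero]; norm_num

lemma dist_vert (a b : ℝ) (h : a ≤ b) : dist (pt 0 b) (pt 0 a) = b - a := by
  rw [dist_plane]
  simp only [pt_zero, pt_one, sub_self]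
  rw [zero_pow two_ne_zero, zero_add, Real.sqrt_sq (by linarith)]

lemma diam_big : 8 ≤ Metric.diam big := by
  have h1 : pt 0 8 ∈ big := by
    refine ⟨?_, ?_, ?_, ?_⟩ <;> simp only [pt_zero, pt_one, fB_zero, gB_zero] <;> norm_num
  have h2 : pt 0 0 ∈ big := by
    refine ⟨?_, ?_, ?_, ?_⟩ <;> simp only [pt_zero, pt_one, fB_zero, gB_zero] <;> norm_num
  have := Metric.dist_le_diam_of_mem isBounded_big h1 h2
  rw [dist_vert _ _ (by norm_num)] at this
  linarith

lemma diam_small : 8 ≤ Metric.diam small := by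
  have h1 : pt 0 148 ∈ small := by
    refine ⟨?_, ?_, ?_, ?_⟩ <;> simp only [pt_zero, pt_one, gS_zero, gB_zero] <;> norm_num
  have h2 : pt 0 140 ∈ small := by
    refine ⟨?_, ?_, ?_, ?_⟩ <;> simp only [pt_zero, pt_one, gS_zero, gB_zero] <;> norm_num
  have := Metric.dist_le_diam_of_mem isBounded_small h1 h2
  rw [dist_vert _ _ (by norm_num)] at this
  linarith

end Pool.Agent.MP_9020c0_gt

end MrgPart1

-- ======== part 2: formerly Pool.Agent.MP_9020c0_gt.Tiling
section MrgPart2

set_option autoImplicit false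

open MeasureTheory Set
open scoped ENNReal NNReal Pointwise

namespace Pool.Agent.MP_9020c0_gt

/-- Distance to the nearest multiple of 128. -/
noncomputable def tau (x : ℝ) : ℝ := |x - 128 * round (x / 128)|

lemma tau_le (x : ℝ) : tau x ≤ 64 := by
  have h := abs_sub_round (x / 128)
  have : x - 128 * round (x / 128) = 128 * (x / 128 - round (x / 128)) := by ring
  unfold tau
  rw [this, abs_mul, abs_of_pos (by norm_num : (0 : ℝ) < 128)]
  linarith

lemma tau_nonneg (x : ℝ) : 0 ≤ tau x := abs_nonneg _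

lemma tau_eq {x : ℝ} (j : ℤ) (h : |x - 128 * j| ≤ 64) : tau x = |x - 128 * j| := by
  have h' := tau_le x
  unfold tau at *
  generalize round (x / 128) = i at *
  obtain ⟨a1, a2⟩ := abs_le.1 h
  obtain ⟨b1, b2⟩ := abs_le.1 h'
  have c1 : i ≤ j + 1 := by
    have : (i : ℝ) ≤ j + 1 := by linarith
    exact_mod_cast this
  have c2 : j ≤ i + 1 := by
    have : (j : ℝ) ≤ i + 1 := by linarith
    exact_mod_cast this
  obtain e | e | e : i = j ∨ i = j + 1 ∨ j = i + 1 := by omega
  · rw [e]
  · subst e
    push_cast at *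
    rw [abs_of_nonpos (by linarith), abs_of_nonneg (by linarith)]
    linarith
  · subst e
    push_cast at *
    rw [abs_of_nonneg (by linarith), abs_of_nonpos (by linarith)]
    linarith

lemma tau_shift (x : ℝ) : tau (x - 64) = 64 - tau x := by
  have h' := tau_le x
  unfold tau at h'
  conv_rhs => unfold tau
  generalize round (x / 128) = i at *
  obtain ⟨b1, b2⟩ := abs_le.1 h'
  rcases le_total 0 (x - 128 * i) with h | h
  · rw [tau_eq i (abs_le.2 ⟨by linarith, by linarith⟩), abs_of_nonpos (by linarith),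
      abs_of_nonneg h]
    ring
  · rw [tau_eq (i - 1) (abs_le.2 ⟨by push_cast; linarith, by push_cast; linarith⟩),
      abs_of_nonneg (by push_cast; linarith), abs_of_nonpos h]
    push_cast
    ring

/-- Lower boundary of the row number k of big tiles. -/
noncomputable def rowL (k : ℤ) (x : ℝ) : ℝ := 110 * k + lo (tau (x - 64 * k))
/-- Upper boundary of the row number k of big tiles. -/
noncomputable def rowU (k : ℤ) (x : ℝ) : ℝ := 110 * k + up (tau (x - 64 * k))

lemma rowL_bounds (k : ℤ) (x : ℝ) : 110 * k ≤ rowL k x ∧ rowL k x ≤ 110 * k + 38 := by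
  have := lo_bounds (tau_nonneg (x - 64 * k)) (tau_le _)
  unfold rowL
  constructor <;> linarith [this.1, this.2]

lemma rowU_bounds (k : ℤ) (x : ℝ) : 110 * k + 110 ≤ rowU k x ∧ rowU k x ≤ 110 * k + 142 := by
  have := up_bounds (tau_le (x - 64 * k))
  unfold rowU
  constructor <;> linarith [this.1, this.2]

lemma rowL_succ (k : ℤ) (x : ℝ) :
    rowL (k + 1) x = 110 * k + (110 + lo (64 - tau (x - 64 * k))) := by
  unfold rowL
  rw [← tau_shift]
  push_cast
  have : x - 64 * ((k : ℝ) + 1) = x - 64 * k - 64 := by ring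
  rw [this]
  ring

lemma rowU_le_rowL_succ (k : ℤ) (x : ℝ) : rowU k x ≤ rowL (k + 1) x := by
  rw [rowL_succ]
  unfold rowU
  linarith [up_le_lo (tau (x - 64 * k))]

lemma rowL_mono {k k' : ℤ} (h : k ≤ k') (x : ℝ) : rowL k x ≤ rowL k' x := by
  rcases h.eq_or_lt with rfl | h
  · exact le_rfl
  have : (k : ℝ) + 1 ≤ k' := by exact_mod_cast h
  linarith [(rowL_bounds k x).2, (rowL_bounds k' x).1]

lemma rowU_mono {k k' : ℤ} (h : k ≤ k') (x : ℝ) : rowU k x ≤ rowU k' x := by
  rcases h.eq_or_lt with rfl | h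
  · exact le_rfl
  have : (k : ℝ) + 1 ≤ k' := by exact_mod_cast h
  linarith [(rowU_bounds k x).2, (rowU_bounds k' x).1]

lemma rowL_le_rowU (k : ℤ) (x : ℝ) : rowL k x ≤ rowU k x := by
  linarith [(rowL_bounds k x).2, (rowU_bounds k x).1]

/-- The lattice of translations. -/
noncomputable def shift (j k : ℤ) : Plane := pt (128 * j + 64 * k) (110 * k)

/-- The two prototiles. -/
def proto : Bool → Set Plane
  | true => big
  | false => small

/-- The tiles of the tiling at unit scale. -/
noncomputable def tile (i : Bool × ℤ × ℤ) : Set Plane :=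
  (fun p => p + shift i.2.1 i.2.2) '' proto i.1

lemma mem_translate {v p : Plane} {S : Set Plane} : p ∈ (fun q => q + v) '' S ↔ p - v ∈ S := by
  constructor
  · rintro ⟨q, hq, rfl⟩
    simpa using hq
  · intro h
    exact ⟨p - v, h, by simp⟩

lemma sub_shift_zero (p : Plane) (j k : ℤ) : (p - shift j k) 0 = p 0 - 64 * k - 128 * j := by
  simp only [PiLp.sub_apply, shift, pt_zero]
  ring

lemma sub_shift_one (p : Plane) (j k : ℤ) : (p - shift j k) 1 = p 1 - 110 * k := by
  simp only [PiLp.sub_apply, shift, pt_one]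

lemma tile_cover (p : Plane) : ∃ i, p ∈ tile i := by
  obtain ⟨k, hk1, hk2⟩ : ∃ k : ℤ, rowL k (p 0) ≤ p 1 ∧ p 1 ≤ rowL (k + 1) (p 0) := by
    have f1 := Int.floor_le (p 1 / 110)
    have f2 := Int.lt_floor_add_one (p 1 / 110)
    generalize ⌊p 1 / 110⌋ = m at f1 f2
    rcases le_total (rowL m (p 0)) (p 1) with h | h
    · refine ⟨m, h, ?_⟩
      have := (rowL_bounds (m + 1) (p 0)).1
      push_cast at this
      linarith
    · refine ⟨m - 1, ?_, by rwa [sub_add_cancel]⟩
      have := (rowL_bounds (m - 1) (p 0)).2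
      push_cast at this
      linarith
  have ht := tau_le (p 0 - 64 * k)
  rw [rowL_succ] at hk2
  rcases le_or_gt (p 1) (rowU k (p 0)) with h | h
  · refine ⟨(true, round ((p 0 - 64 * k) / 128), k), mem_translate.2 ?_⟩
    unfold rowL at hk1
    unfold rowU at h
    unfold tau at hk1 h ht
    obtain ⟨b1, b2⟩ := abs_le.1 ht
    refine ⟨?_, ?_, ?_, ?_⟩ <;> simp only [sub_shift_zero, sub_shift_one, fB, gB] <;> linarith
  · refine ⟨(false, round ((p 0 - 64 * k) / 128), k), mem_translate.2 ?_⟩
    unfold rowU at h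
    have ht4 : tau (p 0 - 64 * k) ≤ 4 := by
      by_contra hc
      rw [up_eq_lo (not_le.1 hc).le] at h
      linarith
    unfold tau at hk2 h ht4
    obtain ⟨b1, b2⟩ := abs_le.1 ht4
    refine ⟨?_, ?_, ?_, ?_⟩ <;> simp only [sub_shift_zero, sub_shift_one, gS, gB] <;> linarith

lemma interior_translate (v : Plane) (S : Set Plane) :
    interior ((fun q => q + v) '' S) = (fun q => q + v) '' interior S :=
  ((Homeomorph.addRight v).image_interior S).symm

lemma interior_big {p : Plane} {j k : ℤ} (h : p ∈ interior (tile (true, j, k))) :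
    |p 0 - 64 * k - 128 * j| < 64 ∧ rowL k (p 0) < p 1 ∧ p 1 < rowU k (p 0) := by
  unfold tile at h
  rw [interior_translate, mem_translate] at h
  obtain ⟨h1, h2, h3, h4⟩ := interior_region_subset h
  simp only [sub_shift_zero, sub_shift_one, fB, gB] at h1 h2 h3 h4
  have ha : |p 0 - 64 * k - 128 * j| < 64 := abs_lt.2 ⟨h1, h2⟩
  unfold rowL rowU
  rw [tau_eq j ha.le]
  exact ⟨ha, by linarith, by linarith⟩

lemma interior_small {p : Plane} {j k : ℤ} (h : p ∈ interior (tile (false, j, k))) :
    |p 0 - 64 * k - 128 * j| < 64 ∧ rowU k (p 0) < p 1 ∧ p 1 < rowL (k + 1) (p 0) := by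
  unfold tile at h
  rw [interior_translate, mem_translate] at h
  obtain ⟨h1, h2, h3, h4⟩ := interior_region_subset h
  simp only [sub_shift_zero, sub_shift_one, gS, gB] at h1 h2 h3 h4
  have ha : |p 0 - 64 * k - 128 * j| < 64 := abs_lt.2 ⟨by linarith, by linarith⟩
  rw [rowL_succ]
  unfold rowU
  rw [tau_eq j ha.le]
  exact ⟨ha, by linarith, by linarith⟩

lemma col_unique {x : ℝ} {j j' : ℤ} (h : |x - 128 * j| < 64) (h' : |x - 128 * j'| < 64) :
    j = j' := by
  obtain ⟨a1, a2⟩ := abs_lt.1 h
  obtain ⟨b1, b2⟩ := abs_lt.1 h'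
  have c1 : j < j' + 1 := by
    have : (j : ℝ) < j' + 1 := by linarith
    exact_mod_cast this
  have c2 : j' < j + 1 := by
    have : (j' : ℝ) < j + 1 := by linarith
    exact_mod_cast this
  omega

lemma big_small_disjoint {p : Plane} {j k j' k' : ℤ} (h : p ∈ interior (tile (true, j, k)))
    (h' : p ∈ interior (tile (false, j', k'))) : False := by
  obtain ⟨-, a2, a3⟩ := interior_big h
  obtain ⟨-, b2, b3⟩ := interior_small h'
  rcases le_or_gt k k' with c | c
  · linarith [rowU_mono c (p 0)]
  · linarith [rowL_mono (show k' + 1 ≤ k from c) (p 0)]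

lemma tile_disjoint : Pairwise fun i i' => Disjoint (interior (tile i)) (interior (tile i')) := by
  rintro ⟨b, j, k⟩ ⟨b', j', k'⟩ hne
  rw [Set.disjoint_left]
  intro p h h'
  apply hne
  cases b <;> cases b'
  · obtain ⟨a1, a2, a3⟩ := interior_small h
    obtain ⟨b1, b2, b3⟩ := interior_small h'
    obtain rfl : k = k' := by
      rcases lt_trichotomy k k' with c | c | c
      · linarith [rowL_mono (show k + 1 ≤ k' from c) (p 0), rowL_le_rowU k' (p 0)]
      · exact c
      · linarith [rowL_mono (show k' + 1 ≤ k from c) (p 0), rowL_le_rowU k (p 0)]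
    rw [col_unique a1 b1]
  · exact (big_small_disjoint h' h).elim
  · exact (big_small_disjoint h h').elim
  · obtain ⟨a1, a2, a3⟩ := interior_big h
    obtain ⟨b1, b2, b3⟩ := interior_big h'
    obtain rfl : k = k' := by
      rcases lt_trichotomy k k' with c | c | c
      · linarith [rowL_mono (show k + 1 ≤ k' from c) (p 0), rowU_le_rowL_succ k (p 0)]
      · exact c
      · linarith [rowL_mono (show k' + 1 ≤ k from c) (p 0), rowU_le_rowL_succ k' (p 0)]
    rw [col_unique a1 b1]

/-- The properties required of each single tile. -/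
def Good (D : ℝ) (T : Set Plane) : Prop :=
  IsTile T ∧ D ≤ Metric.diam T ∧ isoRatio T ≤ ENNReal.ofReal 13.84

lemma good_proto (b : Bool) : Good 8 (proto b) := by
  cases b
  · exact ⟨isTile_small, diam_small, ratio_small⟩
  · exact ⟨isTile_big, diam_big, ratio_big⟩

lemma Good.translate {D : ℝ} {T : Set Plane} (h : Good D T) (v : Plane) :
    Good D ((fun q => q + v) '' T) := by
  obtain ⟨⟨hb, ⟨e⟩⟩, hd, hr⟩ := h
  have hiso : Isometry fun q : Plane => q + v := isometry_add_right v
  refine ⟨⟨hiso.lipschitz.isBounded_image hb,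
    ⟨((Homeomorph.addRight v).image T).symm.trans e⟩⟩, by rwa [hiso.diam_image], ?_⟩
  have h1 : frontier ((fun q => q + v) '' T) = (fun q => q + v) '' frontier T :=
    ((Homeomorph.addRight v).image_frontier T).symm
  unfold isoRatio at *
  rw [h1, hiso.hausdorffMeasure_image (Or.inl zero_le_one), Set.image_add_right,
    measure_preimage_add_right]
  exact hr

lemma Good.smul {D : ℝ} {T : Set Plane} (h : Good D T) {r : ℝ} (hr0 : 0 < r) :
    Good (r * D) (r • T) := by
  obtain ⟨⟨hb, ⟨e⟩⟩, hd, hr⟩ := h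
  refine ⟨⟨hb.smul₀ r, ⟨((Homeomorph.smulOfNeZero r hr0.ne').image T).symm.trans e⟩⟩, ?_, ?_⟩
  · rw [diam_smul₀, Real.norm_of_nonneg hr0.le]
    exact mul_le_mul_of_nonneg_left hd hr0.le
  · have h1 : frontier (r • T) = r • frontier T :=
      ((Homeomorph.smulOfNeZero r hr0.ne').image_frontier T).symm
    unfold isoRatio at *
    rw [h1, Measure.hausdorffMeasure_smul₀ zero_le_one hr0.ne',
      Measure.addHaar_smul_of_nonneg _ hr0.le]
    have e1 : (‖r‖₊ ^ (1 : ℝ)) • μH[1] (frontier T) = ENNReal.ofReal r * μH[1] (frontier T) := by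
      rw [NNReal.rpow_one, ENNReal.smul_def, smul_eq_mul, Real.nnnorm_of_nonneg hr0.le,
        ENNReal.ofReal_eq_coe_nnreal hr0.le]
    rw [e1, finrank_euclideanSpace_fin, mul_pow, ENNReal.ofReal_pow hr0.le,
      ENNReal.mul_div_mul_left _ _ (by positivity) (by finiteness)]
    exact hr

theorem exists_tiling (D₀ : ℝ) (hD : 0 < D₀) :
    ∃ T : ℕ → Set Plane, IsTiling T ∧ (∀ n, D₀ ≤ Metric.diam (T n)) ∧
      ∀ n, isoRatio (T n) ≤ ENNReal.ofReal 13.84 := by
  have hr : 0 < D₀ / 8 := by positivity
  let e : ℕ ≃ Bool × ℤ × ℤ := Classical.choice inferInstance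
  have hg : ∀ n, Good D₀ ((D₀ / 8) • tile (e n)) := by
    intro n
    have := ((good_proto (e n).1).translate (shift (e n).2.1 (e n).2.2)).smul hr
    rwa [div_mul_cancel₀ _ (by norm_num)] at this
  refine ⟨fun n => (D₀ / 8) • tile (e n), ⟨fun n => (hg n).1, ?_, ?_⟩, fun n => (hg n).2.1,
    fun n => (hg n).2.2⟩
  · rw [eq_univ_iff_forall]
    intro p
    obtain ⟨i, hi⟩ := tile_cover ((D₀ / 8)⁻¹ • p)
    refine mem_iUnion.2 ⟨e.symm i, ?_⟩
    rw [Equiv.apply_symm_apply, mem_smul_set_iff_inv_smul_mem₀ hr.ne']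
    exact hi
  · intro m n hmn
    have : Disjoint (interior (tile (e m))) (interior (tile (e n))) :=
      tile_disjoint (e.injective.ne hmn)
    simp only [interior_smul₀ hr.ne']
    rw [Set.disjoint_left] at this ⊢
    intro p h1 h2
    rw [mem_smul_set_iff_inv_smul_mem₀ hr.ne'] at h1 h2
    exact this h1 h2

end Pool.Agent.MP_9020c0_gt

end MrgPart2

-- marker of a merged file
example : 731051 + 181647 = 731051 + 181647 := rfl
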